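import Pool.Agent.W263.MN.EQ

/-!
# One-sided bounds for the means of the sums `∑ a_p log p / p` and the Riemann hypothesis

Let `C : y² = x³ + a x + b` be an elliptic curve over `ℚ`, `a, b ∈ ℤ`, with entire `L`-function `F` (Euler
factors at the primes dividing `2Δ` removed), of order `r` at `s = 1`, and let

  `A_k(x) = ∑_{p ≤ x} (1 - log p / log x)^k a_p log p / p`,
  `Ψ_k(x) = ∑_{p^j ≤ x} (1 - log p^j / log x)^k (α_p^j + β_p^j) log p / p^j`.

So `A_0(x)` is the sum of Mestre and Nagao, and `A_1(x) = (log x)⁻¹ ∫_1^x A_0(t) dt/t` is its mean.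

Kim and Murty showed that if `A_0(x) / log x` has a limit then the Riemann hypothesis holds for
`L(C, s)`.  Here it is shown that a LOWER bound `A_1(x) ≥ -K log x` for the MEAN of `A_0` is enough, and
that it is also necessary (Part 2; the growth condition there holds for all `L(C, s)`, by the
functional equation).  In Part 1 nothing about the growth of `F` is assumed: a one-sided bound for one
of the means `A_k` already forces the asymptotic behaviour of the means `Ψ_k` for large `k`, with an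
error term `O(1)`, and it forces `F` to have no zeros with `Re s > 1`.  Part 3 is unconditional.

The proof uses Hasse's bound, Landau's lemma, a Tauberian theorem of Karamata's type, the theorem of
Borel and Caratheodory and Laplace inversion; everything is proved in the imported files.
-/

set_option autoImplicit false

namespace Pool.Agent.Results.MP_ad1693_nt.MeanCriterion

open Pool.Agent.W263.BSD (pointCount GoodPrime IsLSeries order_finite)
open Pool.Agent.W263.MN Filter Topology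

/-- `F'/F` grows at most polynomially in `|s|` and `1/(Re s - 1)` in the strip `1 < Re s ≤ 2`. -/
def LogDerivBound (F : ℂ → ℂ) : Prop :=
  ∃ (C : ℝ) (A : ℕ), ∀ s : ℂ, 1 < s.re → s.re ≤ 2 →
    ‖deriv F s / F s‖ ≤ C * ((1 + ‖s‖) / (s.re - 1)) ^ A

/-- **One-sided bounds for the means of the Mestre-Nagao sums.** -/
theorem result (a b : ℤ) (hΔ : 4 * a ^ 3 + 27 * b ^ 2 ≠ 0) (F : ℂ → ℂ) (hF : IsLSeries a b F) :
    ∃ r : ℕ, analyticOrderAt F 1 = r ∧
      List.TFAE [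
        ∃ (k : ℕ) (C : ℝ), ∀ᶠ x : ℝ in atTop, -(C * Real.log x) ≤ primeMean a b k x,
        (∀ s : ℝ, 1 < s → F s ≠ 0) ∧
          ∃ (k : ℕ) (C : ℝ), ∀ᶠ x : ℝ in atTop, primeMean a b k x ≤ C * Real.log x,
        ∃ k : ℕ, Tendsto (fun x : ℝ => primePowerMean a b k x / Real.log x) atTop
          (𝓝 (-(r : ℝ) / (k + 1))),
        ∃ (k : ℕ) (C : ℝ), ∀ᶠ x : ℝ in atTop,
          |primePowerMean a b k x + r / (k + 1) * Real.log x| ≤ C,
        (∀ s : ℂ, 1 < s.re → F s ≠ 0) ∧ LogDerivBound F] ∧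
      ((∃ (C : ℝ) (A : ℕ), ∀ s : ℂ, 1 < s.re → ‖F s‖ ≤ C * (1 + ‖s‖) ^ A) →
        List.TFAE [
          ∀ s : ℂ, 1 < s.re → F s ≠ 0,
          ∃ C : ℝ, ∀ᶠ x : ℝ in atTop, |primeMean a b 1 x| ≤ C * Real.log x,
          ∃ C : ℝ, ∀ᶠ x : ℝ in atTop, -(C * Real.log x) ≤ primeMean a b 1 x,
          ∃ C : ℝ, ∀ᶠ x : ℝ in atTop, |primePowerMean a b 2 x + r / 3 * Real.log x| ≤ C]) ∧
      (∀ (k : ℕ) (σ : ℝ), σ < r →
        ∃ᶠ x : ℝ in atTop, primePowerMean a b k x < -(σ / (k + 1) * Real.log x)) ∧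
      ((∀ s : ℝ, 1 < s → F s ≠ 0) → ∀ (k : ℕ) (σ : ℝ), r < σ →
        ∃ᶠ x : ℝ in atTop, -(σ / (k + 1) * Real.log x) < primePowerMean a b k x) := by
  obtain ⟨r, hr⟩ := order_finite hF
  refine ⟨r, hr, ?_⟩
  have hfin := bad_finite hΔ
  obtain ⟨Bs, hBs⟩ : ∃ Bs : Finset Nat.Primes, ∀ p : Nat.Primes,
      p ∈ Bs ↔ ¬ GoodPrime a b (p : ℕ) := ⟨hfin.toFinset, fun p => by
    rw [Set.Finite.mem_toFinset]; rfl⟩
  have E := eq_tdata hBs
  have hB : ∀ x ∈ Bs, ∀ s : ℂ, ((1 : ℝ) + 1) / 2 ≤ s.re →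
      ((fun _ => 1 : Pool.Agent.W263.EP.sysQ.X → Polynomial ℂ) x).eval
        (((Pool.Agent.W263.EP.sysQ.N x : ℕ) : ℂ) ^ (-s)) ≠ 0 := by
    intro x _ s _
    simp
  have e1 : ((1 : ℝ) + 1) / 2 = 1 := by norm_num
  have e2 : ((1 : ℝ) + 2) / 2 = 3 / 2 := by norm_num
  have he : ∀ s : ℂ, ((1 : ℝ) + 2) / 2 < s.re → F s = Pool.Agent.W263.EP.LFB
      Pool.Agent.W263.EP.sysQ Bs (fun _ => 1) (Pool.Agent.W263.EP.abTr (AA a b)) s := by
    intro s hs
    rw [e2] at hs
    exact LFB_EQ hBs hF hs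
  have hcB : Pool.Agent.W263.EP.IsContB Pool.Agent.W263.EP.sysQ Bs (fun _ => 1)
      (Pool.Agent.W263.EP.abTr (AA a b)) 1 F :=
    ⟨fun s _ => hF.1.analyticAt _, fun s hs => he s (by simpa using hs)⟩
  have hm : MeromorphicAt F ((((1 : ℝ) + 1) / 2 : ℝ) : ℂ) := (hF.1.analyticAt _).meromorphicAt
  have hn : meromorphicOrderAt F ((((1 : ℝ) + 1) / 2 : ℝ) : ℂ) = ((r : ℤ) : WithTop ℤ) := by
    rw [e1, Complex.ofReal_one, (hF.1.analyticAt _).meromorphicOrderAt_eq, hr]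
    rfl
  have hO := lord_of_mero hm hn
  have hZ : ∀ k x, primePowerMean a b k x = ZK Pool.Agent.W263.EP.sysQ (Bs : Set Nat.Primes)
      (Pool.Agent.W263.EP.abTr (AA a b)) 1 k x := fun k x => (ZK_EQ hBs k x).symm
  have hS : ∀ k x, primeMean a b k x = SK Pool.Agent.W263.EP.sysQ (Bs : Set Nat.Primes)
      (Pool.Agent.W263.EP.abTr (AA a b)) 1 k x := fun k x => (SK_EQ hBs k x).symm
  have hr' : ((r : ℤ) : ℝ) = (r : ℝ) := by push_cast; rfl
  -- the continuation
  have hfull : (∃ G : ℂ → ℂ, Pool.Agent.W263.EP.IsFullB Pool.Agent.W263.EP.sysQ Bs (fun _ => 1)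
      (Pool.Agent.W263.EP.abTr (AA a b)) 1 G ∧ LDB (((1 : ℝ) + 1) / 2) G) ↔
      (∀ s : ℂ, 1 < s.re → F s ≠ 0) ∧ LogDerivBound F := by
    constructor
    · rintro ⟨G, hG, C, A, hC⟩
      have hopen : IsOpen {s : ℂ | ((1 : ℝ) + 1) / 2 < s.re} := Pool.Agent.W263.BSD.isOpen_half _
      have h1 : AnalyticOnNhd ℂ F {s : ℂ | ((1 : ℝ) + 1) / 2 < s.re} := fun s _ =>
        hF.1.analyticAt s
      have h2 : AnalyticOnNhd ℂ G {s : ℂ | ((1 : ℝ) + 1) / 2 < s.re} := hG.1.analyticOnNhd hopen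
      have h3 := h1.eqOn_of_preconnected_of_eventuallyEq h2 (Pool.Agent.W263.BSD.preconn_half _)
        (show ((2 : ℝ) : ℂ) ∈ {s : ℂ | ((1 : ℝ) + 1) / 2 < s.re} by
          show ((1 : ℝ) + 1) / 2 < ((2 : ℝ) : ℂ).re
          rw [Complex.ofReal_re]; norm_num) (by
          filter_upwards [(Pool.Agent.W263.BSD.isOpen_half (((1 : ℝ) + 2) / 2)).mem_nhds
            (show ((1 : ℝ) + 2) / 2 < ((2 : ℝ) : ℂ).re by
              rw [Complex.ofReal_re]; norm_num)] with z hz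
          rw [he z hz, hG.2.2 z hz])
      refine ⟨fun s hs => ?_, C, A, fun s hs hs2 => ?_⟩
      · have hs' : ((1 : ℝ) + 1) / 2 < s.re := by rw [e1]; exact hs
        rw [h3 hs']
        exact hG.2.1 s hs'
      · have hs' : ((1 : ℝ) + 1) / 2 < s.re := by rw [e1]; exact hs
        have h4 : F =ᶠ[𝓝 s] G := by
          filter_upwards [hopen.mem_nhds hs'] with z hz using h3 hz
        have h5 := hC s hs' (by rw [e1]; linarith)
        rw [h4.deriv_eq, h3 hs']
        rw [e1] at h5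
        exact h5
    · rintro ⟨h1, C, A, hC⟩
      refine ⟨F, ⟨hF.1.differentiableOn, fun s hs => h1 s (by rw [e1] at hs; exact hs), he⟩,
        C, A, fun s hs hs2 => ?_⟩
      rw [e1] at hs hs2 ⊢
      exact hC s hs (by linarith)
  refine ⟨?_, ?_, ?_, ?_⟩
  · have key := mero_tfae E hB hcB hm hn
    simp only [hr'] at key
    simp only [hZ, hS]
    have k1 := key.out 1 2
    have k2 := key.out 1 3
    have k3 := key.out 1 4
    have k4 := (key.out 1 5).trans hfull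
    have hone : ∀ P : Prop, ((∀ s : ℝ, ((1 : ℝ) + 1) / 2 < s → F s ≠ 0) ∧ P) ↔
        ((∀ s : ℝ, 1 < s → F s ≠ 0) ∧ P) := by
      intro P
      rw [e1]
    have k1' := k1.trans (hone _)
    tfae_have 1 ↔ 2 := k1'
    tfae_have 1 ↔ 3 := k2
    tfae_have 1 ↔ 4 := k3
    tfae_have 1 ↔ 5 := k4
    tfae_finish
  · rintro ⟨C, A, hC⟩
    have key := growth_tfae E hB (fun s _ => hF.1 s) he hm hn
      ⟨C, A, fun s hs => hC s (by rw [e1] at hs; exact hs)⟩
    simp only [hr'] at key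
    simp only [hZ, hS]
    have k0 : (∀ s : ℂ, ((1 : ℝ) + 1) / 2 < s.re → F s ≠ 0) ↔ ∀ s : ℂ, 1 < s.re → F s ≠ 0 := by
      rw [e1]
    have k1 := k0.symm.trans (key.out 0 1)
    have k2 := k0.symm.trans (key.out 0 2)
    have k3 := k0.symm.trans (key.out 0 3)
    tfae_have 1 ↔ 2 := k1
    tfae_have 1 ↔ 3 := k2
    tfae_have 1 ↔ 4 := k3
    tfae_finish
  · intro k σ hσ
    simp only [hZ]
    exact zk_freq_lower E hB hcB hO k (by rw [hr']; exact hσ)
  · intro hne k σ hσ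
    simp only [hZ]
    exact zk_freq_upper E hB hcB hO (fun s hs => hne s (by rw [e1] at hs; exact hs)) k
      (by rw [hr']; exact hσ)

end Pool.Agent.Results.MP_ad1693_nt.MeanCriterion
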